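import Mathlib

/-!
# An `Aut(F)`-invariant extreme positive definite function that does not vanish on a generator

For the free group `F` of rank `r ≥ 2` let `N` be the kernel of the natural map onto `(ℤ/2)^r`.
The function equal to `1` on `N` and to `-1/(2^r - 1)` off `N` is an extreme point of the set of
normalized positive definite functions on `F` that are invariant under `Aut(F)`.
-/

set_option autoImplicit false

namespace Pool.Agent.Results.MP_4640da_an.ExtremeNonzero

open Finset ComplexConjugate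

/-- Positive definite complex functions on a group: for all finite families `g i` of group elements
and `c i` of complex numbers the number `∑ i, ∑ j, c i * conj (c j) * φ ((g j)⁻¹ * g i)` is real and
nonnegative. -/
def IsPosDef {G : Type*} [Group G] (φ : G → ℂ) : Prop :=
  ∀ (n : ℕ) (g : Fin n → G) (c : Fin n → ℂ),
    (∑ i, ∑ j, c i * conj (c j) * φ ((g j)⁻¹ * g i)).im = 0 ∧
    0 ≤ (∑ i, ∑ j, c i * conj (c j) * φ ((g j)⁻¹ * g i)).re

/-- Normalized positive definite functions on `G` that are invariant under all automorphisms. -/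
def P1Aut (G : Type*) [Group G] : Set (G → ℂ) :=
  {φ | IsPosDef φ ∧ φ 1 = 1 ∧ ∀ (α : MulAut G) (g : G), φ (α g) = φ g}

section general

variable {G : Type*} [Group G] {φ : G → ℂ}

theorem IsPosDef.fintype (h : IsPosDef φ) {ι : Type*} [Fintype ι] (g : ι → G) (c : ι → ℂ) :
    (∑ i, ∑ j, c i * conj (c j) * φ ((g j)⁻¹ * g i)).im = 0 ∧
    0 ≤ (∑ i, ∑ j, c i * conj (c j) * φ ((g j)⁻¹ * g i)).re := by
  classical
  have h1 := h (Fintype.card ι) (fun i => g ((Fintype.equivFin ι).symm i))
    (fun i => c ((Fintype.equivFin ι).symm i))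
  have key : (∑ i : Fin (Fintype.card ι), ∑ j : Fin (Fintype.card ι),
      c ((Fintype.equivFin ι).symm i) * conj (c ((Fintype.equivFin ι).symm j)) *
        φ ((g ((Fintype.equivFin ι).symm j))⁻¹ * g ((Fintype.equivFin ι).symm i)))
      = ∑ i, ∑ j, c i * conj (c j) * φ ((g j)⁻¹ * g i) := by
    rw [← (Fintype.equivFin ι).symm.sum_comp
      (fun i => ∑ j, c i * conj (c j) * φ ((g j)⁻¹ * g i))]
    refine Finset.sum_congr rfl fun i _ => ?_
    rw [← (Fintype.equivFin ι).symm.sum_comp
      (fun j => c ((Fintype.equivFin ι).symm i) * conj (c j) *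
        φ ((g j)⁻¹ * g ((Fintype.equivFin ι).symm i)))]
  simp only [key] at h1
  exact h1

theorem IsPosDef.inv (h : IsPosDef φ) (h1 : φ 1 = 1) (g : G) : φ g⁻¹ = conj (φ g) := by
  have a := (h 2 ![g, 1] ![1, 1]).1
  have b := (h 2 ![g, 1] ![Complex.I, 1]).1
  simp [Fin.sum_univ_two, h1] at a b
  apply Complex.ext
  · simp; linarith
  · simp; linarith

theorem IsPosDef.norm_le (h : IsPosDef φ) (h1 : φ 1 = 1) (g : G) : ‖φ g‖ ≤ 1 := by
  have a := (h 2 ![g, 1] ![1, - φ g]).2
  have hi := h.inv h1 g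
  simp [Fin.sum_univ_two, h1, hi] at a
  have h2 : ‖φ g‖ ^ 2 ≤ 1 := by
    rw [← Complex.normSq_eq_norm_sq, Complex.normSq_apply]
    nlinarith
  nlinarith [norm_nonneg (φ g)]

/-- If a normalized positive definite function is `1` at `n` then it is right invariant by `n`. -/
theorem IsPosDef.mul_right (h : IsPosDef φ) (h1 : φ 1 = 1) {n : G} (hn : φ n = 1) (g : G) :
    φ (g * n) = φ g := by
  have hi := h.inv h1 n
  have hig := h.inv h1 g
  have hign := h.inv h1 (g * n)
  have a := (h 3 ![n, 1, g⁻¹] ![1, -1, -(φ (g * n) - φ g)]).2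
  have hign' : φ (n⁻¹ * g⁻¹) = conj (φ (g * n)) := by rw [← hign, mul_inv_rev]
  simp [Fin.sum_univ_three, h1, hn, hi, hig, hign'] at a
  have h2 : Complex.normSq (φ (g * n) - φ g) ≤ 0 := by
    rw [Complex.normSq_apply]
    simp
    nlinarith
  have h3 : φ (g * n) - φ g = 0 := by
    have := le_antisymm h2 (Complex.normSq_nonneg _)
    exact Complex.normSq_eq_zero.1 this
  exact sub_eq_zero.1 h3

end general

section free

variable (r : ℕ)

/-- The natural homomorphism of the free group onto `(ℤ/2)^r`. -/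
noncomputable def ab : FreeGroup (Fin r) →* Multiplicative (Fin r → ZMod 2) :=
  FreeGroup.lift fun i => Multiplicative.ofAdd (Pi.single i 1)

/-- The extreme point. -/
noncomputable def tau (g : FreeGroup (Fin r)) : ℂ :=
  open Classical in if ab r g = 1 then 1 else -1 / (2 ^ r - 1)

variable {r}

theorem ab_of (i : Fin r) : ab r (FreeGroup.of i) = Multiplicative.ofAdd (Pi.single i 1) := by
  simp [ab]

theorem pow_pos' (hr : 2 ≤ r) : (0 : ℝ) < 2 ^ r - 1 := by
  have : (2 : ℝ) ^ 1 < 2 ^ r := pow_lt_pow_right₀ (by norm_num) (by omega)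
  linarith

/-- The sum over a finite family of vectors, grouped by class in `(ℤ/2)^r`. -/
theorem tau_sum (n : ℕ) (g : Fin n → FreeGroup (Fin r)) (c : Fin n → ℂ) :
    (∑ i, ∑ j, c i * conj (c j) * (if ab r ((g j)⁻¹ * g i) = 1 then (1 : ℂ) else 0))
      = ∑ v : Fin r → ZMod 2, (∑ i with Multiplicative.toAdd (ab r (g i)) = v, c i) *
          conj (∑ i with Multiplicative.toAdd (ab r (g i)) = v, c i) := by
  have h1 : ∀ v : Fin r → ZMod 2,
      (∑ i with Multiplicative.toAdd (ab r (g i)) = v, c i) *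
          conj (∑ i with Multiplicative.toAdd (ab r (g i)) = v, c i)
      = ∑ i, ∑ j, (if Multiplicative.toAdd (ab r (g i)) = v then c i else 0) *
          (if Multiplicative.toAdd (ab r (g j)) = v then conj (c j) else 0) := by
    intro v
    rw [map_sum, Finset.sum_filter, Finset.sum_filter, Finset.sum_mul_sum]
  simp_rw [h1]
  conv_rhs => rw [Finset.sum_comm]
  refine Finset.sum_congr rfl fun i _ => ?_
  conv_rhs => rw [Finset.sum_comm]
  refine Finset.sum_congr rfl fun j _ => ?_
  have h2 : ∀ v : Fin r → ZMod 2, (if Multiplicative.toAdd (ab r (g i)) = v then c i else 0) *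
          (if Multiplicative.toAdd (ab r (g j)) = v then conj (c j) else 0)
      = if Multiplicative.toAdd (ab r (g i)) = v then
          (c i * (if Multiplicative.toAdd (ab r (g j)) = v then conj (c j) else 0)) else 0 := by
    intro v
    split_ifs <;> simp
  simp_rw [h2]
  rw [Finset.sum_ite_eq]
  simp only [Finset.mem_univ, if_true]
  by_cases h : ab r ((g j)⁻¹ * g i) = 1
  · have h' : ab r (g j) = ab r (g i) := by
      rw [map_mul, map_inv] at h
      exact inv_mul_eq_one.1 h
    simp [h']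
  · have h' : ¬ ab r (g j) = ab r (g i) := by
      intro h3
      apply h
      rw [map_mul, map_inv, h3, inv_mul_cancel]
    have h'' : ¬ Multiplicative.toAdd (ab r (g j)) = Multiplicative.toAdd (ab r (g i)) := by
      intro h3
      exact h' (Multiplicative.toAdd.injective h3)
    rw [if_neg h, if_neg h'', mul_zero, mul_zero]

theorem tau_eq (hr : 2 ≤ r) (g : FreeGroup (Fin r)) :
    tau r g = (((2 ^ r : ℝ) / (2 ^ r - 1) : ℝ) : ℂ) * (if ab r g = 1 then (1 : ℂ) else 0)
      - ((1 / (2 ^ r - 1) : ℝ) : ℂ) := by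
  have h0 := pow_pos' hr
  have h0' : (((2 ^ r - 1 : ℝ)) : ℂ) ≠ 0 := by exact_mod_cast h0.ne'
  unfold tau
  push_cast at h0' ⊢
  by_cases h : ab r g = 1
  · simp only [h, if_true]
    field_simp
  · simp only [h, if_false]
    field_simp
    simp

theorem tau_posDef (hr : 2 ≤ r) : IsPosDef (tau r) := by
  intro n g c
  have h0 := pow_pos' hr
  set a : (Fin r → ZMod 2) → ℂ := fun v => ∑ i with Multiplicative.toAdd (ab r (g i)) = v, c i
    with ha
  have hsum : ∑ v, a v = ∑ i, c i := by
    simp only [ha]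
    exact Finset.sum_fiberwise _ _ _
  have key : (∑ i, ∑ j, c i * conj (c j) * tau r ((g j)⁻¹ * g i))
      = (((2 ^ r : ℝ) / (2 ^ r - 1) * ∑ v, ‖a v‖ ^ 2 - 1 / (2 ^ r - 1) * ‖∑ i, c i‖ ^ 2 : ℝ) : ℂ) := by
    have h1 : ∀ i j, c i * conj (c j) * tau r ((g j)⁻¹ * g i)
        = (((2 ^ r : ℝ) / (2 ^ r - 1) : ℝ) : ℂ) *
          (c i * conj (c j) * (if ab r ((g j)⁻¹ * g i) = 1 then (1 : ℂ) else 0))
          - ((1 / (2 ^ r - 1) : ℝ) : ℂ) * (c i * conj (c j)) := by
      intro i j
      rw [tau_eq hr]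
      ring
    simp_rw [h1, Finset.sum_sub_distrib, ← Finset.mul_sum]
    rw [tau_sum]
    have h2 : ∑ i, c i * ∑ j, conj (c j) = ((‖∑ i, c i‖ ^ 2 : ℝ) : ℂ) := by
      rw [← Finset.sum_mul, ← map_sum, Complex.mul_conj, Complex.normSq_eq_norm_sq]
    have h3 : ∀ v, (∑ i with Multiplicative.toAdd (ab r (g i)) = v, c i) *
        conj (∑ i with Multiplicative.toAdd (ab r (g i)) = v, c i) = ((‖a v‖ ^ 2 : ℝ) : ℂ) := by
      intro v
      rw [Complex.mul_conj, Complex.normSq_eq_norm_sq]
    rw [h2]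
    simp_rw [h3]
    push_cast
    ring
  rw [key]
  refine ⟨Complex.ofReal_im _, ?_⟩
  rw [Complex.ofReal_re]
  have hcs : ‖∑ i, c i‖ ^ 2 ≤ 2 ^ r * ∑ v, ‖a v‖ ^ 2 := by
    rw [← hsum]
    have h4 : ‖∑ v, a v‖ ≤ ∑ v, ‖a v‖ := norm_sum_le _ _
    have h5 : (∑ v, ‖a v‖) ^ 2 ≤ (Finset.univ : Finset (Fin r → ZMod 2)).card * ∑ v, ‖a v‖ ^ 2 :=
      sq_sum_le_card_mul_sum_sq
    have h6 : ((Finset.univ : Finset (Fin r → ZMod 2)).card : ℝ) = 2 ^ r := by
      simp
    rw [h6] at h5
    have h7 : ‖∑ v, a v‖ ^ 2 ≤ (∑ v, ‖a v‖) ^ 2 := by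
      gcongr
    linarith
  have : (2 ^ r : ℝ) / (2 ^ r - 1) * ∑ v, ‖a v‖ ^ 2 - 1 / (2 ^ r - 1) * ‖∑ i, c i‖ ^ 2
      = (2 ^ r * ∑ v, ‖a v‖ ^ 2 - ‖∑ i, c i‖ ^ 2) / (2 ^ r - 1) := by
    field_simp
  rw [this]
  apply div_nonneg _ h0.le
  linarith


/-! ### Automorphisms -/

/-- A class function: `tau` only depends on whether `ab g = 1`; the kernel is invariant. -/
theorem ab_aut_eq_one (α : MulAut (FreeGroup (Fin r))) {g : FreeGroup (Fin r)}
    (h : ab r g = 1) : ab r (α g) = 1 := by
  -- `ab ∘ α` factors through `ab`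
  have key : ∀ (ψ : FreeGroup (Fin r) →* Multiplicative (Fin r → ZMod 2)), ψ g = 1 := by
    intro ψ
    -- the additive map `(ℤ/2)^r → (ℤ/2)^r` sending `e i` to `ψ (of i)`
    let L : (Fin r → ZMod 2) →+ (Fin r → ZMod 2) :=
      { toFun := fun v => ∑ i, v i • Multiplicative.toAdd (ψ (FreeGroup.of i))
        map_zero' := by simp
        map_add' := by
          intro v w
          simp [add_smul, Finset.sum_add_distrib] }
    have hψ : ψ = (AddMonoidHom.toMultiplicative L).comp (ab r) := by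
      apply FreeGroup.ext_hom
      intro i
      rw [MonoidHom.comp_apply, ab_of]
      change ψ (FreeGroup.of i) = Multiplicative.ofAdd (L (Pi.single i 1))
      have : L (Pi.single i 1) = Multiplicative.toAdd (ψ (FreeGroup.of i)) := by
        change ∑ j, (Pi.single i (1 : ZMod 2) : Fin r → ZMod 2) j •
          Multiplicative.toAdd (ψ (FreeGroup.of j)) = _
        rw [Finset.sum_eq_single i]
        · simp
        · intro j _ hj
          simp [hj]
        · simp
      rw [this]
      rfl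
    rw [hψ, MonoidHom.comp_apply, h, map_one]
  exact key ((ab r).comp α.toMonoidHom)

theorem tau_aut (α : MulAut (FreeGroup (Fin r))) (g : FreeGroup (Fin r)) :
    tau r (α g) = tau r g := by
  have : ab r (α g) = 1 ↔ ab r g = 1 := by
    constructor
    · intro h
      have := ab_aut_eq_one α⁻¹ h
      simpa using this
    · exact ab_aut_eq_one α
  unfold tau
  simp only [this]

theorem tau_mem (hr : 2 ≤ r) : tau r ∈ P1Aut (FreeGroup (Fin r)) :=
  ⟨tau_posDef hr, by simp [tau], tau_aut⟩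

/-- The endomorphism fixing all generators but `i`, which is multiplied on the right by `w`. -/
noncomputable def trans (i : Fin r) (w : FreeGroup (Fin r)) :
    FreeGroup (Fin r) →* FreeGroup (Fin r) :=
  FreeGroup.lift fun j => if j = i then FreeGroup.of i * w else FreeGroup.of j

/-- Words in the generators other than `i`. -/
def Avoids (i : Fin r) (w : FreeGroup (Fin r)) : Prop :=
  w ∈ Subgroup.closure {x | ∃ j, j ≠ i ∧ x = FreeGroup.of j}

theorem trans_fix {i : Fin r} {w u : FreeGroup (Fin r)} (hu : Avoids i u) : trans i w u = u := by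
  have : Subgroup.closure {x | ∃ j, j ≠ i ∧ x = FreeGroup.of j} ≤
      MonoidHom.eqLocus (trans i w) (MonoidHom.id _) := by
    rw [Subgroup.closure_le]
    rintro x ⟨j, hj, rfl⟩
    change trans i w (FreeGroup.of j) = FreeGroup.of j
    simp [trans, hj]
  exact this hu

theorem trans_comp {i : Fin r} {w : FreeGroup (Fin r)} (hw : Avoids i w) :
    (trans i w).comp (trans i w⁻¹) = MonoidHom.id _ := by
  apply FreeGroup.ext_hom
  intro j
  by_cases hj : j = i
  · subst hj
    rw [MonoidHom.comp_apply]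
    have h1 : trans j w⁻¹ (FreeGroup.of j) = FreeGroup.of j * w⁻¹ := by simp [trans]
    have h2 : trans j w (FreeGroup.of j) = FreeGroup.of j * w := by simp [trans]
    rw [h1, map_mul, h2, map_inv, trans_fix hw]
    simp
  · simp [trans, hj]

/-- The transvection as an automorphism. -/
noncomputable def transAut (i : Fin r) (w : FreeGroup (Fin r)) (hw : Avoids i w) :
    MulAut (FreeGroup (Fin r)) :=
  MonoidHom.toMulEquiv (trans i w) (trans i w⁻¹)
    (by
      have := trans_comp (i := i) (w := w⁻¹) (Subgroup.inv_mem _ hw)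
      rwa [inv_inv] at this)
    (trans_comp hw)

/-- Every nonzero class in `(ℤ/2)^r` is the class of an automorphic image of a given generator. -/
theorem exists_aut (i0 : Fin r) (v : Fin r → ZMod 2) (hv : v ≠ 0) :
    ∃ α : MulAut (FreeGroup (Fin r)),
      ab r (α (FreeGroup.of i0)) = Multiplicative.ofAdd v := by
  classical
  obtain ⟨i, hi⟩ : ∃ i, v i ≠ 0 := by
    by_contra h
    push Not at h
    exact hv (funext h)
  have hi1 : v i = 1 := by
    have : ∀ x : ZMod 2, x ≠ 0 → x = 1 := by decide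
    exact this _ hi
  set w : FreeGroup (Fin r) := ((Finset.univ.toList).map fun j =>
    if j ≠ i ∧ v j = 1 then FreeGroup.of j else 1).prod with hw
  have hwA : Avoids i w := by
    rw [hw]
    apply Subgroup.list_prod_mem
    intro x hx
    rw [List.mem_map] at hx
    obtain ⟨j, -, rfl⟩ := hx
    split_ifs with h
    · exact Subgroup.subset_closure ⟨j, h.1, rfl⟩
    · exact Subgroup.one_mem _
  have hwab : ab r w = Multiplicative.ofAdd (v - Pi.single i 1) := by
    rw [hw, map_list_prod, List.map_map]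
    have h1 : (List.map (⇑(ab r) ∘ fun j => if j ≠ i ∧ v j = 1 then FreeGroup.of j else 1)
        Finset.univ.toList).prod
        = ∏ j, (ab r (if j ≠ i ∧ v j = 1 then FreeGroup.of j else 1)) := by
      rw [Finset.prod_map_toList]
      rfl
    rw [h1]
    have h2 : ∀ j, ab r (if j ≠ i ∧ v j = 1 then FreeGroup.of j else 1)
        = Multiplicative.ofAdd (if j ≠ i ∧ v j = 1 then (Pi.single j 1 : Fin r → ZMod 2) else 0) := by
      intro j
      split_ifs
      · rw [ab_of]
      · simp
    simp_rw [h2]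
    rw [← ofAdd_sum]
    congr 1
    funext k
    rw [Finset.sum_apply]
    simp only [Pi.sub_apply]
    rw [Finset.sum_eq_single k]
    · by_cases hk : k = i
      · subst hk; simp [hi1]
      · have hd : ∀ x : ZMod 2, x = 1 ∨ x = 0 := by decide
        rcases hd (v k) with h | h <;> simp [hk, h]
    · intro j _ hj
      split_ifs <;> simp [hj.symm]
    · simp
  refine ⟨transAut i w hwA * FreeGroup.freeGroupCongr (Equiv.swap i0 i), ?_⟩
  have h3 : (transAut i w hwA * FreeGroup.freeGroupCongr (Equiv.swap i0 i)) (FreeGroup.of i0)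
      = trans i w (FreeGroup.of i) := by
    rw [MulAut.mul_apply]
    simp [transAut]
  rw [h3]
  have h4 : trans i w (FreeGroup.of i) = FreeGroup.of i * w := by simp [trans]
  rw [h4, map_mul, hwab, ab_of, ← ofAdd_add]
  congr 1
  abel

theorem ab_surj (v : Fin r → ZMod 2) : ∃ g, ab r g = Multiplicative.ofAdd v := by
  by_cases hv : v = 0
  · exact ⟨1, by simp [hv]⟩
  · rcases r with _ | r
    · exact absurd (Subsingleton.elim v 0) hv
    · obtain ⟨α, h⟩ := exists_aut (0 : Fin (r + 1)) v hv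
      exact ⟨_, h⟩

/-- Invariant normalized positive definite functions that are `1` on the kernel of `ab`. -/
theorem structure_of_one (i0 : Fin r) {σ : FreeGroup (Fin r) → ℂ}
    (hσ : σ ∈ P1Aut (FreeGroup (Fin r))) (h1 : ∀ g, ab r g = 1 → σ g = 1) :
    (∀ g, ab r g ≠ 1 → σ g = σ (FreeGroup.of i0)) ∧ (σ (FreeGroup.of i0)).im = 0 ∧
      -1 / (2 ^ r - 1 : ℝ) ≤ (σ (FreeGroup.of i0)).re := by
  obtain ⟨hpd, hone, hinv⟩ := hσ
  have hA : ∀ g, ab r g ≠ 1 → σ g = σ (FreeGroup.of i0) := by
    intro g hg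
    have hv : Multiplicative.toAdd (ab r g) ≠ 0 := by
      intro h
      exact hg (Multiplicative.toAdd.injective (by simpa using h))
    obtain ⟨α, hα⟩ := exists_aut i0 _ hv
    have hn : ab r ((α (FreeGroup.of i0))⁻¹ * g) = 1 := by
      rw [map_mul, map_inv, hα]
      simp
    have h2 := hpd.mul_right hone (h1 _ hn) (α (FreeGroup.of i0))
    rw [mul_inv_cancel_left] at h2
    rw [h2, hinv]
  have hone' : ∀ i : Fin r, ab r (FreeGroup.of i) ≠ 1 := by
    intro i h
    rw [ab_of] at h
    have h2 : (Pi.single i 1 : Fin r → ZMod 2) = 0 := by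
      have := congrArg Multiplicative.toAdd h
      simpa using this
    have h3 := congrFun h2 i
    simp at h3
  have him : (σ (FreeGroup.of i0)).im = 0 := by
    have h2 : ab r (FreeGroup.of i0)⁻¹ ≠ 1 := by
      rw [map_inv]
      exact inv_ne_one.2 (hone' i0)
    have h3 := hA _ h2
    rw [hpd.inv hone] at h3
    have h4 := congrArg Complex.im h3
    simp at h4
    linarith
  refine ⟨hA, him, ?_⟩
  choose s hs using fun v : Fin r → ZMod 2 => ab_surj v
  have h5 := (hpd.fintype (fun v : Fin r → ZMod 2 => s v) (fun _ => 1)).2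
  have h6 : ∀ v w, σ ((s w)⁻¹ * s v) = if v = w then 1 else σ (FreeGroup.of i0) := by
    intro v w
    split_ifs with h
    · subst h; simp [hone]
    · apply hA
      rw [map_mul, map_inv, hs, hs]
      intro h7
      apply h
      have h8 := congrArg Multiplicative.toAdd h7
      simp at h8
      have h9 : v - w = 0 := by rw [← h8]; abel
      exact sub_eq_zero.1 h9
  simp only [h6, map_one, mul_one, one_mul] at h5
  have hcard : (Fintype.card (Fin r → ZMod 2) : ℝ) = 2 ^ r := by simp
  have h7 : (∑ v : Fin r → ZMod 2, ∑ w : Fin r → ZMod 2,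
      (if v = w then (1 : ℂ) else σ (FreeGroup.of i0)))
      = (2 : ℂ) ^ r * (1 + ((2 : ℂ) ^ r - 1) * σ (FreeGroup.of i0)) := by
    have h8 : ∀ v : Fin r → ZMod 2, ∑ w : Fin r → ZMod 2,
        (if v = w then (1 : ℂ) else σ (FreeGroup.of i0)) = 1 + ((2 : ℂ) ^ r - 1) * σ (FreeGroup.of i0) := by
      intro v
      have h9 : ∀ w, (if v = w then (1 : ℂ) else σ (FreeGroup.of i0))
          = (if v = w then (1 - σ (FreeGroup.of i0)) else 0) + σ (FreeGroup.of i0) := by
        intro w; split_ifs <;> ring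
      simp_rw [h9, Finset.sum_add_distrib, Finset.sum_ite_eq]
      simp
      ring
    simp_rw [h8]
    simp
    ring
  rw [h7] at h5
  have h10 : (2 : ℂ) ^ r * (1 + ((2 : ℂ) ^ r - 1) * σ (FreeGroup.of i0))
      = ((2 ^ r * (1 + (2 ^ r - 1) * (σ (FreeGroup.of i0)).re) : ℝ) : ℂ) := by
    have h11 : σ (FreeGroup.of i0) = ((σ (FreeGroup.of i0)).re : ℂ) :=
      Complex.ext (by simp) (by simp [him])
    rw [h11]
    push_cast
    simp
  rw [h10, Complex.ofReal_re] at h5
  rcases Nat.eq_zero_or_pos r with h0 | h0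
  · subst h0; exact i0.elim0
  have hp : (0 : ℝ) < 2 ^ r - 1 := by
    have : (2 : ℝ) ^ 0 < 2 ^ r := pow_lt_pow_right₀ (by norm_num) h0
    simp at this ⊢
    exact this
  have h12 : 0 ≤ 1 + (2 ^ r - 1) * (σ (FreeGroup.of i0)).re := by
    by_contra h
    push Not at h
    have : (0 : ℝ) < 2 ^ r := by positivity
    nlinarith
  rw [div_le_iff₀ hp]
  linarith

end free

/-- For every `r ≥ 2` the convex set of normalized positive definite functions on the free group of
rank `r` that are invariant under all automorphisms has an extreme point `τ` that is not the constant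
function `1` and does not vanish on the free generators; moreover `τ (x i) = -1/(2^r - 1)`. -/
theorem result (r : ℕ) (hr : 2 ≤ r) :
    ∃ τ ∈ Set.extremePoints ℝ (P1Aut (FreeGroup (Fin r))),
      τ ≠ (fun _ => 1) ∧ ∀ i : Fin r, τ (FreeGroup.of i) = -1 / (2 ^ r - 1) ∧
        τ (FreeGroup.of i) ≠ 0 := by
  have h0 := pow_pos' hr
  have h0' : ((2 : ℂ) ^ r - 1) ≠ 0 := by exact_mod_cast h0.ne'
  have hof : ∀ i : Fin r, ab r (FreeGroup.of i) ≠ 1 := by
    intro i h
    rw [ab_of] at h
    have h2 : (Pi.single i 1 : Fin r → ZMod 2) = 0 := by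
      have := congrArg Multiplicative.toAdd h
      simpa using this
    have h3 := congrFun h2 i
    simp at h3
  have hval : ∀ i : Fin r, tau r (FreeGroup.of i) = -1 / (2 ^ r - 1) := by
    intro i
    simp [tau, hof i]
  have hne : ∀ i : Fin r, tau r (FreeGroup.of i) ≠ 0 := by
    intro i
    rw [hval]
    exact div_ne_zero (by norm_num) h0'
  refine ⟨tau r, ?_, ?_, fun i => ⟨hval i, hne i⟩⟩
  · rw [mem_extremePoints]
    refine ⟨tau_mem hr, ?_⟩
    rintro σ₁ h₁ σ₂ h₂ ⟨a, b, ha, hb, hab, hτ⟩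
    have hpt : ∀ g, (a : ℂ) * σ₁ g + (b : ℂ) * σ₂ g = tau r g := by
      intro g
      rw [← hτ]
      simp
    have hre : ∀ g, a * (σ₁ g).re + b * (σ₂ g).re = (tau r g).re := by
      intro g
      rw [← hpt g]
      simp
    have hN : ∀ σ ∈ P1Aut (FreeGroup (Fin r)), ∀ g, (σ g).re ≤ 1 := by
      intro σ hσ g
      exact (Complex.re_le_norm _).trans (hσ.1.norm_le hσ.2.1 g)
    have hN' : ∀ σ ∈ P1Aut (FreeGroup (Fin r)), ∀ g, (σ g).re = 1 → σ g = 1 := by
      intro σ hσ g hg
      have h3 := hσ.1.norm_le hσ.2.1 g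
      have h4 : ‖σ g‖ ^ 2 = (σ g).re ^ 2 + (σ g).im ^ 2 := by
        rw [← Complex.normSq_eq_norm_sq, Complex.normSq_apply]; ring
      have h5 : ‖σ g‖ ^ 2 ≤ 1 := by nlinarith [norm_nonneg (σ g)]
      rw [hg] at h4
      have h6 : (σ g).im = 0 := by nlinarith
      exact Complex.ext (by simpa using hg) (by simpa using h6)
    have hk : ∀ g, ab r g = 1 → σ₁ g = 1 ∧ σ₂ g = 1 := by
      intro g hg
      have h3 := hre g
      have h4 : (tau r g).re = 1 := by simp [tau, hg]
      rw [h4] at h3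
      have h5 := hN σ₁ h₁ g
      have h6 := hN σ₂ h₂ g
      constructor
      · apply hN' σ₁ h₁ g
        nlinarith
      · apply hN' σ₂ h₂ g
        nlinarith
    have hi : 0 < r := by omega
    obtain ⟨hA₁, him₁, hge₁⟩ := structure_of_one (⟨0, hi⟩ : Fin r) h₁ fun g hg => (hk g hg).1
    obtain ⟨hA₂, him₂, hge₂⟩ := structure_of_one (⟨0, hi⟩ : Fin r) h₂ fun g hg => (hk g hg).2
    have h7 := hre (FreeGroup.of ⟨0, hi⟩)
    have h8 : (tau r (FreeGroup.of ⟨0, hi⟩)).re = -1 / (2 ^ r - 1) := by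
      rw [hval]
      have : (-1 / (2 ^ r - 1) : ℂ) = ((-1 / (2 ^ r - 1) : ℝ) : ℂ) := by push_cast; rfl
      rw [this, Complex.ofReal_re]
    rw [h8] at h7
    have hsum : a * ((σ₁ (FreeGroup.of ⟨0, hi⟩)).re - -1 / (2 ^ r - 1)) +
        b * ((σ₂ (FreeGroup.of ⟨0, hi⟩)).re - -1 / (2 ^ r - 1)) = 0 := by
      linear_combination h7 - (-1 / (2 ^ r - 1)) * hab
    have hp₁ := mul_nonneg ha.le (sub_nonneg.2 hge₁)
    have hp₂ := mul_nonneg hb.le (sub_nonneg.2 hge₂)
    have h9 : (σ₁ (FreeGroup.of ⟨0, hi⟩)).re = -1 / (2 ^ r - 1) := by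
      have : a * ((σ₁ (FreeGroup.of ⟨0, hi⟩)).re - -1 / (2 ^ r - 1)) = 0 := by linarith
      rcases mul_eq_zero.1 this with h | h
      · exact absurd h ha.ne'
      · linarith
    have h10 : (σ₂ (FreeGroup.of ⟨0, hi⟩)).re = -1 / (2 ^ r - 1) := by
      have : b * ((σ₂ (FreeGroup.of ⟨0, hi⟩)).re - -1 / (2 ^ r - 1)) = 0 := by linarith
      rcases mul_eq_zero.1 this with h | h
      · exact absurd h hb.ne'
      · linarith
    have fin : ∀ σ : FreeGroup (Fin r) → ℂ, (∀ g, ab r g = 1 → σ g = 1) →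
        (∀ g, ab r g ≠ 1 → σ g = σ (FreeGroup.of ⟨0, hi⟩)) →
        (σ (FreeGroup.of ⟨0, hi⟩)).im = 0 → (σ (FreeGroup.of ⟨0, hi⟩)).re = -1 / (2 ^ r - 1) →
        σ = tau r := by
      intro σ hs1 hs2 hs3 hs4
      funext g
      by_cases hg : ab r g = 1
      · rw [hs1 g hg]; simp [tau, hg]
      · rw [hs2 g hg]
        have : tau r g = ((-1 / (2 ^ r - 1) : ℝ) : ℂ) := by
          simp [tau, hg]
        rw [this]
        exact Complex.ext (by rw [hs4, Complex.ofReal_re]) (by rw [hs3, Complex.ofReal_im])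
    exact ⟨fin σ₁ (fun g hg => (hk g hg).1) hA₁ him₁ h9,
      fin σ₂ (fun g hg => (hk g hg).2) hA₂ him₂ h10⟩
  · intro h
    have hi : 0 < r := by omega
    have h3 := congrFun h (FreeGroup.of ⟨0, hi⟩)
    rw [hval] at h3
    rw [div_eq_one_iff_eq h0'] at h3
    have h4 : (2 : ℂ) ^ r = 0 := by linear_combination -h3
    exact pow_ne_zero r (by norm_num : (2 : ℂ) ≠ 0) h4

end Pool.Agent.Results.MP_4640da_an.ExtremeNonzero
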